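import Pool.Agent.H75.GG.Targets
import Pool.Agent.H4.GSQ.CHS

/-!
# CHP: only few rows matter for short strings and for the answers of a second machine
-/

set_option autoImplicit false

namespace Pool.Agent.H4.GG

open Finset Filter Pool.Agent.H6.NB Pool.Agent.H70.OQ Pool.Agent.H75.GS Pool.Agent.H75.GG
  Pool.Agent.H4.GSQ

open Classical in
theorem pf_CHP (hWRF : T_WRF) (hWRT : T_WRT) (hLKX : T_LKX) (hMSK : T_MSK) (hSYX : T_SYX)
    (hMEG : T_MEG) (hEXG : T_EXG) (hSYT : T_SYT) (hELT : T_ELT) : T_CHP := by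
  intro n a a0 M A B σ₀ O₀ OT Ox p κ P D D' S t d k κ' P' hW hB hSy hSy' hS ht hD hD' hκ hP hE
    hM1 hkM
  obtain ⟨hT, hX⟩ := hWRT n a a0 A σ₀ O₀ OT Ox p κ P D S t d hW hSy hS ht hD
  have hF := hWRF n a a0 A σ₀ O₀ OT Ox p κ P hW
  obtain ⟨-, hm2, hm3⟩ := hMSK A hW.loc
  have hn := hW.n2
  have ha : 0 < a := lt_of_le_of_lt (Nat.zero_le _) hW.aa
  have hlen : ∀ x, n ^ 2 ≤ (pst n x (p.1 x)).length ^ 2 := fun x => by
    rw [chs_pst]
    exact Nat.pow_le_pow_left (by omega) 2
  -- the values of the oracles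
  have vT : ∀ w : List Bool, w.length ≤ n ^ 2 ^ a → OT w =
      vlG (TT n p) (fun s : Om n (2 ^ a) => OT (key s.1)) P (clg 1 n (2 ^ a) O₀ w) :=
    hLKX 1 A A n (2 ^ a) σ₀ O₀ OT (TT n p) κ P hW.loc (fun _ _ _ => Iff.rfl) hn hW.b0 hW.bT
  have vX : ∀ x, ∀ w : List Bool, w.length ≤ n ^ 2 ^ a → Ox x w =
      vlG (UU n p x) (fun s : Om n (2 ^ a) => Ox x (key s.1)) P (clg 1 n (2 ^ a) O₀ w) := fun x =>
    hLKX 1 A (mskA (n ^ 2 ^ a0) (pst n x (p.1 x)) A) n (2 ^ a) σ₀ O₀ (Ox x) (UU n p x) κ P hW.loc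
      (fun s O hs => hm3 _ _ s O (hs.trans_le (hlen x))) hn hW.b0 (hW.bx x)
  -- the two machines
  obtain ⟨DD, hDD⟩ : ∃ DD, DD = D2 D D' := ⟨_, rfl⟩
  have hSyD : Syg DD (lev2 fun s => lv n s.1) S t d a := by
    rw [hDD]
    exact hSYT _ _ _ _ _ _ _ _ _ _ _ hSy hSy'
  have E := fun (T U : Nn n 1 → Bool) (κ e : Om n (2 ^ a) ⊕ Om n (2 ^ a) → Bool) =>
    hELT (Nn n 1) (Om n (2 ^ a)) (fun s => ns s.1) (fun s => qs s.1) D D' a a0
      (fun s => lv n s.1) P' P T U κ e hP
  rw [← hDD] at hE
  rw [← hDD] at E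
  obtain ⟨e2, he2⟩ : ∃ e2, e2 = elG (accG DD P') (TT n p) κ' a := ⟨_, rfl⟩
  obtain ⟨eT, heT⟩ : ∃ eT : Om n (2 ^ a) → Bool, eT = fun s => OT (key s.1) := ⟨_, rfl⟩
  have hinl : (fun s => e2 (.inl s)) = eT := by
    rw [heT, hT]
    funext s
    rw [he2, (E (TT n p) (TT n p) κ' κ').1 s]
    have : (fun s => κ' (.inl s)) = κ := funext fun s => (hκ s).symm
    rw [this]
  have hinl' : ∀ s, e2 (.inl s) = OT (key s.1) := fun s => by
    have := congrFun hinl s
    rw [heT] at this
    exact this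
  rw [← heT] at hX
  rw [← he2] at hE
  -- the answers for the world of the row x
  have hexG : ∀ x, p.2 x = false → ∀ s : Om n (2 ^ a),
      exG (accG (Daw DD (lev2 fun s => lv n s.1) a0) P') a (TT n p) (UU n p x) e2 (.inl s) =
        Ox x (key s.1) := by
    intro x hx s
    rw [(E (TT n p) (UU n p x) κ' e2).2.1 s, hinl, ← hX x hx]
  -- typicality
  unfold Evt at hE
  push Not at hE
  obtain ⟨-, hE1, hE2⟩ := hE
  have hEa : ∀ s, lev2 (fun s => lv n s.1) s < a →
      (dsG (accG (Dfr DD (lev2 fun s => lv n s.1) a0 e2) P') a (TT n p) (UU n p) e2 s).card ≤ k 0 :=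
    hE1
  have hEb : ∀ s, lev2 (fun s => lv n s.1) s < a →
      (dsG (accG (Daw DD (lev2 fun s => lv n s.1) a0) P') a (TT n p) (UU n p) e2 s).card ≤
        k (lev2 (fun s => lv n s.1) s) := hE2
  constructor
  · intro w hw
    have e1 := vT w hw
    rcases hc : clg 1 n (2 ^ a) O₀ w with b | v | s | ⟨s, i, v⟩
    · have : ((univ.filter fun x => p.2 x = false).filter fun x => Ox x w ≠ OT w) = ∅ := by
        refine filter_eq_empty_iff.2 fun x _ => ?_
        rw [e1, vX x w hw, hc]
        exact fun h => h rfl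
      rw [this]; simp
    · obtain ⟨y, hy⟩ := chs_tab p v
      refine le_trans (card_le_one.2 fun x hx x' hx' => ?_) hM1
      rw [mem_filter] at hx hx'
      have h2 := hx.2
      have h3 := hx'.2
      rw [e1, vX x w hw, hc] at h2
      rw [e1, vX x' w hw, hc] at h3
      rw [hy x h2, hy x' h3]
    · refine le_trans (card_le_card (t := dsG (accG (Daw DD (lev2 fun s => lv n s.1) a0) P') a
        (TT n p) (UU n p) e2 (.inl s)) ?_)
        ((hEb (.inl s) (hSy.lt s)).trans (hkM _ (hSy.lt s)))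
      intro x hx
      rw [mem_filter, mem_filter] at hx
      have h2 := hx.2
      rw [e1, vX x w hw, hc] at h2
      unfold dsG
      rw [mem_filter]
      refine ⟨mem_univ _, ?_⟩
      unfold dlG
      rw [hexG x hx.1.2 s, hinl' s]
      change Ox x (key s.1) ≠ OT (key s.1) at h2
      revert h2
      cases Ox x (key s.1) <;> cases OT (key s.1) <;> simp
    · have : ((univ.filter fun x => p.2 x = false).filter fun x => Ox x w ≠ OT w) = ∅ := by
        refine filter_eq_empty_iff.2 fun x _ => ?_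
        rw [e1, vX x w hw, hc]
        exact fun h => h rfl
      rw [this]; simp
  · intro s hs
    rcases lt_or_ge s.length (n ^ 2) with h2 | h2
    · -- a short instance
      have hpow : n ≤ n ^ 2 ^ a0 := Nat.le_self_pow (by positivity) n
      have : ((univ.filter fun x => p.2 x = false).filter fun x => ¬ (B s (Ox x) ↔ B s OT)) =
          ∅ := by
        refine filter_eq_empty_iff.2 fun x hx h => ?_
        obtain ⟨-, hF2, -, -⟩ := hF x (mem_filter.1 hx).2
        refine h (hB s _ _ fun w hw => ?_)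
        have h3 : w.length < n := by
          have h4 : w.length ^ 2 < n ^ 2 := hw.trans_lt h2
          exact lt_of_pow_lt_pow_left₀ 2 (Nat.zero_le n) h4
        rw [← hF2 w (h3.le.trans hpow)]
        unfold msk
        have h5 : w ≠ pst n x (p.1 x) := by
          intro h6
          have h7 := chs_pst n x (p.1 x)
          rw [← h6] at h7
          omega
        rw [if_neg h5]
      rw [this]; simp
    obtain ⟨s', rfl⟩ : ∃ s' : Om n (2 ^ a), s'.1 = s := ⟨⟨s, h2, hs⟩, rfl⟩
    have hBT : B s'.1 OT ↔ accG D' P s' (TT n p) eT = true := by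
      rw [← hD', heT]
      refine hB s'.1 _ _ fun w hw => vT w ?_
      have h4 : w.length ≤ w.length ^ 2 := Nat.le_self_pow (by norm_num) _
      exact h4.trans (hw.trans s'.2.2.le)
    have hBX : ∀ x, B s'.1 (Ox x) ↔
        accG D' P s' (UU n p x) (fun s : Om n (2 ^ a) => Ox x (key s.1)) = true := by
      intro x
      rw [← hD']
      refine hB s'.1 _ _ fun w hw => vX x w ?_
      have h4 : w.length ≤ w.length ^ 2 := Nat.le_self_pow (by norm_num) _
      exact h4.trans (hw.trans s'.2.2.le)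
    rcases lt_or_ge (lv n s'.1) a0 with hlv | hlv
    · -- a frozen instance
      have hSyF := (hSYX (Nn n 1) (Om n (2 ^ a) ⊕ Om n (2 ^ a)) (nn2 fun s => ns s.1)
        (qb2 fun s => qs s.1) DD (lev2 fun s => lv n s.1) S t d a a0 hS ht hSyD).1 e2
      have hLv := (hMEG (Nn n 1) (Om n (2 ^ a) ⊕ Om n (2 ^ a)) (nn2 fun s => ns s.1)
        (qb2 fun s => qs s.1) (Dfr DD (lev2 fun s => lv n s.1) a0 e2) (lev2 fun s => lv n s.1)
        S t d a hSyF P').1
      have hX3 := (hEXG (Nn n 1) (Om n (2 ^ a) ⊕ Om n (2 ^ a))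
        (accG (Dfr DD (lev2 fun s => lv n s.1) a0 e2) P') (lev2 fun s => lv n s.1) a hLv).2.2.1
      refine le_trans (card_le_card (t := dsG (accG (Dfr DD (lev2 fun s => lv n s.1) a0 e2) P') a
        (TT n p) (UU n p) e2 (.inr s')) ?_) ((hEa (.inr s') (hSy.lt s')).trans (hkM _ ha))
      intro x hx
      rw [mem_filter, mem_filter] at hx
      obtain ⟨⟨-, hx1⟩, hx2⟩ := hx
      obtain ⟨-, -, hF3, -⟩ := hF x hx1
      unfold dsG
      rw [mem_filter]
      refine ⟨mem_univ _, ?_⟩
      rw [hX3]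
      have hacc : ∀ T e, accG (Dfr DD (lev2 fun s => lv n s.1) a0 e2) P' (.inr s') T e =
          accG D' P s' T eT := by
        intro T e
        rw [← hinl, ← (E T T κ' e2).2.2.2 s']
        unfold accG Dfr
        rw [chs_kst]
        have : decide (lev2 (fun s : Om n (2 ^ a) => lv n s.1) (.inr s') < a0) = true :=
          decide_eq_true hlv
        simp only [this, Bool.true_and]
      rw [hacc, hacc]
      have hlow : accG D' P s' (UU n p x) (fun s : Om n (2 ^ a) => Ox x (key s.1)) =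
          accG D' P s' (UU n p x) eT := by
        unfold accG
        refine hSy'.low s' _ _ fun c hc => ?_
        cases c with
        | cst b => rfl
        | bas v => rfl
        | key s'' =>
          have h5 : lv n s''.1 < a0 := lt_trans hc hlv
          rw [heT]
          exact hF3 s''.1 ((chs_lv hn s''.2.1).1 h5)
        | blk _ _ _ => rfl
      rw [hBX, hBT, hlow] at hx2
      revert hx2
      cases accG D' P s' (TT n p) eT <;> cases accG D' P s' (UU n p x) eT <;> simp
    · -- an aware instance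
      have hSyF := (hSYX (Nn n 1) (Om n (2 ^ a) ⊕ Om n (2 ^ a)) (nn2 fun s => ns s.1)
        (qb2 fun s => qs s.1) DD (lev2 fun s => lv n s.1) S t d a a0 hS ht hSyD).2
      have hLv := (hMEG (Nn n 1) (Om n (2 ^ a) ⊕ Om n (2 ^ a)) (nn2 fun s => ns s.1)
        (qb2 fun s => qs s.1) (Daw DD (lev2 fun s => lv n s.1) a0) (lev2 fun s => lv n s.1)
        S t d a hSyF P').1
      have hX3 := (hEXG (Nn n 1) (Om n (2 ^ a) ⊕ Om n (2 ^ a))
        (accG (Daw DD (lev2 fun s => lv n s.1) a0) P') (lev2 fun s => lv n s.1) a hLv).2.2.1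
      refine le_trans (card_le_card (t := dsG (accG (Daw DD (lev2 fun s => lv n s.1) a0) P') a
        (TT n p) (UU n p) e2 (.inr s')) ?_)
        ((hEb (.inr s') (hSy.lt s')).trans (hkM _ (hSy.lt s')))
      intro x hx
      rw [mem_filter, mem_filter] at hx
      obtain ⟨⟨-, hx1⟩, hx2⟩ := hx
      unfold dsG
      rw [mem_filter]
      refine ⟨mem_univ _, ?_⟩
      rw [hX3]
      have hacc : ∀ T e, accG (Daw DD (lev2 fun s => lv n s.1) a0) P' (.inr s') T e =
          accG D' P s' T fun s => e (.inl s) := by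
        intro T e
        rw [← (E T T κ' e).2.2.2 s']
        unfold accG Daw
        have : decide (lev2 (fun s : Om n (2 ^ a) => lv n s.1) (.inr s') < a0) = false :=
          decide_eq_false (not_lt.2 hlv)
        simp only [this, Bool.not_false, Bool.true_and]
      rw [hacc, hacc, hinl]
      have hex : (fun s => exG (accG (Daw DD (lev2 fun s => lv n s.1) a0) P') a (TT n p)
          (UU n p x) e2 (.inl s)) = fun s : Om n (2 ^ a) => Ox x (key s.1) :=
        funext fun s => hexG x hx1 s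
      rw [hex]
      rw [hBX, hBT] at hx2
      revert hx2
      cases accG D' P s' (TT n p) eT <;>
        cases accG D' P s' (UU n p x) (fun s : Om n (2 ^ a) => Ox x (key s.1)) <;> simp

end Pool.Agent.H4.GG
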